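import Pool.Agent.TH145.GF.Main
import Pool.Agent.TH145.GE.CurveLin

/-!
MP_c6ff8d_ag, Q1: generic complete intersections in an arbitrary projective variety are
algebraically hyperbolic, and all their subvarieties are of general type.

Let `K` be an algebraically closed field of characteristic `0`, and let `k` be a field contained in
`K`, with algebraic closure `k'` in `K`. Let `V` be a closed subset of projective space of dimension
`n`, defined over `k'`, of dimension at most `m`. For `a` in a finite set `A`, let `F_a` be a generic
member of a linear system over `k'` of forms of degree `d_a`, spanned by the forms `P_{a,j}`: the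
ratios of the coefficients `t_{a,j}` of `F_a` to one of them are, for all `a` together,
algebraically independent over `k`. Suppose that each of the linear systems contains the monomials
`x_c ^ (d_a - e) x_i ^ e` for all `c`, `i` and `e`.

Let `X` be the set of the points of `V` with `F_a = 0` for all `a`, and suppose that
`2 m + 1 ≤ ∑ (d_a + 1)`. Then:

* every non-constant morphism `f` from a smooth projective curve of genus `g` over `K` to `X`
  satisfies `(∑ (d_a + 1) - 2 m) deg f ≤ 2 g - 2`; so `X` is algebraically hyperbolic;
* every subvariety of `X` of positive dimension is of general type; so `X` is hyperbolic.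

In the first part, the curve is given by its function field `L`, of transcendence degree one over
`K`, and `x` are homogeneous coordinates of the morphism. For a point `Q` of the curve, `pord Q x` is
the minimum of the orders at `Q` of the nonzero coordinates; `pht K x` is minus the sum of these
numbers, the degree of `f`. The number `canDeg K L` is `2 g - 2`: it is minus the sum over the points
`Q` of the orders of `δ (t_Q)`, where `t_Q` is a uniformizer at `Q`, for any nonzero derivation `δ`
of `L` over `K`. In the second part, `L` is the function field of the subvariety, or a finite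
extension of it, and `x` is its generic point, in homogeneous coordinates.
-/

set_option autoImplicit false

namespace Pool.Agent.Results.MP_c6ff8d_ag.GenericIntersections

open MvPolynomial FF Pool.Agent.W602.GT Pool.Agent.W603.LV Pool.Agent.W603.PV Pool.Agent.TH145.MG

theorem result {k K : Type} [Field k] [Field K] [IsAlgClosed K] [CharZero K] [Algebra k K]
    {n m : ℕ}
    -- a closed subset of projective space, of dimension at most `m`
    (V : Set (MvPolynomial (Fin (n + 1)) (algebraicClosure k K)))
    (hVh : ∀ f ∈ V, ∃ e, f.IsHomogeneous e) (hV : DimLE (algebraicClosure k K) V m)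
    -- linear systems of forms of degrees `d a`
    {A : Type} [Fintype A] (d : A → ℕ) {J : A → Type} [∀ a, Fintype (J a)]
    (P : ∀ a, J a → MvPolynomial (Fin (n + 1)) (algebraicClosure k K))
    (hP : ∀ a j, (P a j).IsHomogeneous (d a))
    -- they contain the monomials in two variables
    (hZ : ∀ (a : A) (c i : Fin (n + 1)) (e : ℕ), e ≤ d a → ∃ j, P a j = X c ^ (d a - e) * X i ^ e)
    -- the coefficients; their ratios are algebraically independent over `k`
    (t : ∀ a, J a → K) (j0 : ∀ a, J a) (h0 : ∀ a, t a (j0 a) ≠ 0)
    (hgen : AlgebraicIndependent k fun p : (a : A) × {j : J a // j ≠ j0 a} =>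
      t p.1 p.2.1 / t p.1 (j0 p.1))
    -- the forms
    (F : A → MvPolynomial (Fin (n + 1)) K)
    (hF : ∀ a, F a = ∑ j, MvPolynomial.C (t a j) * map (algebraMap (algebraicClosure k K) K) (P a j))
    (hd : 2 * m + 1 ≤ ∑ a, (d a + 1)) :
    -- algebraic hyperbolicity
    (∀ (L : Type) [Field L] [Algebra K L] [IsFF K L] (x : Fin (n + 1) → L),
      (∃ i j, x j ≠ 0 ∧ x i / x j ∉ Set.range (algebraMap K L)) →
      (∀ f ∈ V, aeval x (map (algebraMap (algebraicClosure k K) K) f) = 0) →
      (∀ a, aeval x (F a) = 0) →
      (∀ δ : Derivation K L L, δ ≠ 0 → canDeg K L = - ∑ᶠ Q : Place K L, Q.ord (δ Q.surj.choose)) ∧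
      (((∑ a, (d a + 1) : ℕ) : ℤ) - 2 * m) * pht K x ≤ canDeg K L) ∧
    -- all subvarieties of positive dimension are of general type
    (∀ (L : Type) [Field L] [Algebra K L] (w : ℕ) (x : Fin (n + 1) → L), 0 < w →
      Algebra.trdeg K L = w → x ≠ 0 → Algebra.IsAlgebraic (coords K x) L →
      (∀ f ∈ V, aeval x (map (algebraMap (algebraicClosure k K) K) f) = 0) →
      (∀ a, aeval x (F a) = 0) → GeneralType K L w) := by
  classical
  have hind : AlgebraicIndependent (algebraicClosure k K)
      fun p : (a : A) × {j : J a // j ≠ j0 a} => t p.1 p.2.1 / t p.1 (j0 p.1) :=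
    hgen.algebraicClosure
  have hSt : ∀ c : Fin (n + 1), ∀ a, ∀ I ∈ Pool.Agent.TH145.GD.St c (d a),
      ∃ j, P a j = monomial I 1 := by
    intro c a I hI
    obtain ⟨i, e, he, rfl⟩ := hI
    obtain ⟨j, hj⟩ := hZ a c i e he
    refine ⟨j, ?_⟩
    rw [hj, Pool.Agent.TH145.GD.sM, X_pow_eq_monomial, X_pow_eq_monomial, monomial_mul, one_mul]
  have hsum : ∑ a, (d a + 1) = ∑ a, d a + (Finset.univ : Finset A).card := by
    rw [Finset.sum_add_distrib, Finset.card_eq_sum_ones]
  constructor
  · intro L _ _ _ x hx hxV hxF
    refine ⟨fun δ hδ => canDeg_eq hδ, ?_⟩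
    obtain ⟨i, c, hc, hic⟩ := hx
    have h1 := Pool.Agent.TH145.GE.curve_lin V hVh hV P hP t j0 h0 hind c (hSt c) hF Finset.univ x
      hc ⟨i, c, hc, hic⟩ hxV (fun a _ => hxF a) (fun a ha => absurd (Finset.mem_univ a) ha)
    have h2 : {Q : Place K L | ∃ a, a ∉ (Finset.univ : Finset A) ∧
        d a * pord Q x < Q.ord (aeval x (F a))} = ∅ := by
      ext Q
      simp
    rw [h2, Set.ncard_empty, Nat.cast_zero, add_zero, ← Nat.cast_add, ← hsum] at h1
    exact h1
  · intro L _ _ w x hw htr hx0 hxL hxV hxF
    obtain ⟨c, hc⟩ : ∃ c, x c ≠ 0 := by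
      by_contra h
      push Not at h
      exact hx0 (funext h)
    have h1 := Pool.Agent.TH145.GF.log_general V hVh hV P hP t j0 h0 hind c (hSt c) hF Finset.univ
      hw (by rw [hsum] at hd; omega) htr x hc hxL hxV (fun a _ => hxF a)
      (fun a ha => absurd (Finset.mem_univ a) ha)
    refine general_of_log ?_
    have h2 : (fun Q : Place K L => ∃ a, a ∉ (Finset.univ : Finset A) ∧
        d a * pord Q x < Q.ord (aeval x (F a))) = fun _ => False := by
      funext Q
      simp
    rwa [h2] at h1

end Pool.Agent.Results.MP_c6ff8d_ag.GenericIntersections
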